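import Pool.Agent.TH456.PW.Rows
import Pool.Agent.TH456.TM.Inst

/-!
# Singular matrices of logarithms with a fixed first row: for almost all integers in the second row the other entries
satisfy no approximate algebraic relation
-/

set_option autoImplicit false

namespace Pool.Agent.Results.MP_bbc1fa_nt.FixedRowRelations

/-- The real numbers `a`, `b_1, …, b_m` are multiplicatively independent. -/
def Independent {m : ℕ} (a : ℝ) (b : Fin m → ℝ) : Prop :=
  ∀ (n : ℤ) (k : Fin m → ℤ), a ^ n * ∏ i, b i ^ k i = 1 → n = 0 ∧ k = 0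

/-- The matrices with rows `(log a, log b_i)` and `(log x, log y_i)` are singular. -/
def Singular {m : ℕ} (a : ℝ) (b : Fin m → ℝ) (x : ℝ) (y : Fin m → ℝ) : Prop :=
  ∀ i, 0 < y i ∧ (!![Real.log a, Real.log (b i); Real.log x, Real.log (y i)]).det = 0

/-- The integers `x` in `[N, 2N]` for which there are positive real numbers `y_1, …, y_m` such that all matrices with rows
`(log a, log b_i)` and `(log x, log y_i)` are singular, and integers `c_(k,l,e)` (`0 ≤ k ≤ d0`, `0 ≤ l ≤ d1`,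
`0 ≤ e_1, …, e_m ≤ d`), not all zero and of absolute value at most `N ^ A`, such that the sum of the numbers
`c_(k,l,e) (log a) ^ k (log x) ^ l y_1 ^ e_1 ⋯ y_m ^ e_m` has absolute value at most `N ^ (-B)`. -/
def Exceptional {m : ℕ} (a : ℝ) (b : Fin m → ℝ) (d0 d1 d N : ℕ) (A B : ℝ) : Set ℕ :=
  {x | N ≤ x ∧ x ≤ 2 * N ∧ ∃ y : Fin m → ℝ, Singular a b x y ∧
    ∃ c : Fin (d0 + 1) × Fin (d1 + 1) × (Fin m → Fin (d + 1)) → ℤ, c ≠ 0 ∧
      (∀ u, |(c u : ℝ)| ≤ (N : ℝ) ^ A) ∧
      |∑ u, (c u : ℝ) * (Real.log a ^ (u.1 : ℕ) * Real.log x ^ (u.2.1 : ℕ) * ∏ i, y i ^ (u.2.2 i : ℕ))| ≤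
        (N : ℝ) ^ (-B)}

open Pool.Agent.TH456.PW

/-- Let `a > 1` be a rational number, `b_1, …, b_m > 1` real numbers (for instance rational), `a, b_1, …, b_m`
multiplicatively independent, `d0`, `d1`, `d` natural numbers, `A ≥ 0` and `β > 1 - 1 / ((d0 + 1) (d1 + 1) (d + 1) ^ m + 1)`. There are `B`, `C` such that for every
`N ≥ 1`, for all but at most `C N ^ β` of the integers `x` in `[N, 2N]`: if `y_1, …, y_m > 0` are real numbers such that all
matrices with rows `(log a, log b_i)` and `(log x, log y_i)` are singular, then every nonzero polynomial with integer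
coefficients of absolute value at most `N ^ A` and of degrees at most `d0`, `d1`, `d, …, d` in its variables has absolute
value more than `N ^ (-B)` at the numbers `log a`, `log x`, `y_1, …, y_m`. -/
theorem result {m : ℕ} (a : ℚ) (b : Fin m → ℝ) (ha : 1 < a) (hb : ∀ i, 1 < b i) (hind : Independent (a : ℝ) b)
    (d0 d1 d : ℕ) (A β : ℝ) (hA : 0 ≤ A)
    (hβ : 1 - 1 / (((d0 : ℝ) + 1) * (d1 + 1) * (d + 1) ^ m + 1) < β) :
    ∃ B C : ℝ, ∀ N : ℕ, 1 ≤ N → (Exceptional (a : ℝ) b d0 d1 d N A B).Finite ∧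
      ((Exceptional (a : ℝ) b d0 d1 d N A B).ncard : ℝ) ≤ C * (N : ℝ) ^ β := by
  have haR : (1 : ℝ) < a := by exact_mod_cast ha
  obtain ⟨B, C, hC, h⟩ := rows (Real.log a) a b
    (goodConst (Pool.Agent.TH456.TM.measT_real_log a (by linarith) ha.ne')) haR hb
    (fun n k hk => (hind n k hk).2) d0 d1 d A β hA hβ
  refine ⟨B, C, fun N hN => ?_⟩
  have hfin : (Exceptional (a : ℝ) b d0 d1 d N A B).Finite :=
    (Set.finite_Icc N (2 * N)).subset fun _ hx => ⟨hx.1, hx.2.1⟩
  refine ⟨hfin, ?_⟩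
  have hla : 0 < Real.log (a : ℝ) := Real.log_pos haR
  have hsub : Exceptional (a : ℝ) b d0 d1 d N A B ⊆
      ExcM (Real.log a) (φR (d := d) fun i => Real.log (b i) / Real.log a) d0 d1 N A B := by
    rintro x ⟨hx1, hx2, y, hy, c, hc0, hc, hs⟩
    have hN1 : (1 : ℝ) ≤ N := by exact_mod_cast hN
    have hxp : (0 : ℝ) < x := by
      have : (N : ℝ) ≤ x := by exact_mod_cast hx1
      linarith
    have hyi : ∀ i, y i = (x : ℝ) ^ (Real.log (b i) / Real.log a) := by
      intro i
      obtain ⟨h1, h2⟩ := hy i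
      rw [Matrix.det_fin_two_of] at h2
      have h3 : Real.log (y i) = Real.log x * (Real.log (b i) / Real.log a) := by
        field_simp
        linarith
      rw [Real.rpow_def_of_pos hxp, ← h3, Real.exp_log h1]
    refine ⟨hx1, hx2, c, hc0, hc, le_trans (le_of_eq ?_) hs⟩
    congr 1
    refine Finset.sum_congr rfl fun u _ => ?_
    rw [rpow_φR _ hxp]
    simp only [hyi]
  have h3 := Set.ncard_le_ncard hsub (ExcM_fin _ _ _ _ _ _ _)
  calc ((Exceptional (a : ℝ) b d0 d1 d N A B).ncard : ℝ) ≤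
      ((ExcM (Real.log a) (φR (d := d) fun i => Real.log (b i) / Real.log a) d0 d1 N A B).ncard : ℝ) := by exact_mod_cast h3
    _ ≤ C * (N : ℝ) ^ β := h B le_rfl N hN

end Pool.Agent.Results.MP_bbc1fa_nt.FixedRowRelations
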