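import Pool.Agent.TH961.SD.Cnt

set_option autoImplicit false

/-!
Near-singular 2 by 2 matrices of logarithms of rational numbers, counted with a first row which is
arbitrary.
-/

namespace Pool.Agent.Results.MP_bbc1fa_nt.NearSingularMatrices

open Finset

/-- the triples `(n₁, n₂, n₃)` of integers in `[1, N]` -/
def triples (N : ℕ) : Finset (ℕ × ℕ × ℕ) := (Icc 1 N) ×ˢ ((Icc 1 N) ×ˢ (Icc 1 N))

theorem count_real (N : ℕ) (hN : 1 ≤ N) (d₁ d₂ d₃ δ : ℝ) (hδ : 0 < δ) (h1 : δ ≤ |d₁|)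
    (h2 : δ ≤ |d₂|) (h3 : δ ≤ |d₃|) (hs : d₁ + d₂ + d₃ = 0) :
    (((triples N).filter (fun n => |d₁ * Real.log n.1 + d₂ * Real.log n.2.1 +
      d₃ * Real.log n.2.2| ≤ δ / (64 * (N : ℝ) ^ 6))).card : ℝ) ≤
      4 * N * (1 + Real.log N) ^ 2 := by
  classical
  have hNr : (1:ℝ) ≤ N := by exact_mod_cast hN
  have hN0 : (0:ℝ) < N := by linarith
  set t : ℝ := 128 * (N:ℝ) ^ 8 / δ with ht
  have ht0 : 0 < t := by positivity
  have hH : ∀ d : ℝ, δ ≤ |d| → 128 * (N:ℝ) ^ 8 ≤ |t * d| := by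
    intro d hd
    rw [abs_mul, abs_of_pos ht0, ht]
    calc 128 * (N:ℝ) ^ 8 = 128 * (N:ℝ) ^ 8 / δ * δ := by field_simp
      _ ≤ 128 * (N:ℝ) ^ 8 / δ * |d| := by gcongr
  have h := Pool.Agent.TH961.SD.CN_le N hN (128 * (N:ℝ) ^ 8) (t * d₁) (t * d₂) (t * d₃) le_rfl
    (hH d₁ h1) (hH d₂ h2) (hH d₃ h3) (by rw [← mul_add, ← mul_add, hs, mul_zero])
  refine le_trans (le_of_eq ?_) h
  unfold Pool.Agent.TH961.SD.CN triples
  rw [card_filter, Nat.cast_sum, sum_product]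
  apply sum_congr rfl; intro n₁ _
  rw [sum_product]
  apply sum_congr rfl; intro n₂ _
  apply sum_congr rfl; intro n₃ _
  have hiff : |d₁ * Real.log n₁ + d₂ * Real.log n₂ + d₃ * Real.log n₃| ≤
      δ / (64 * (N : ℝ) ^ 6) ↔
      |t * d₁ * Real.log n₁ + t * d₂ * Real.log n₂ + t * d₃ * Real.log n₃| ≤ 2 * (N:ℝ) ^ 2 := by
    have e1 : t * d₁ * Real.log n₁ + t * d₂ * Real.log n₂ + t * d₃ * Real.log n₃ =
        t * (d₁ * Real.log n₁ + d₂ * Real.log n₂ + d₃ * Real.log n₃) := by ring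
    have e2 : 2 * (N:ℝ) ^ 2 = t * (δ / (64 * (N : ℝ) ^ 6)) := by
      rw [ht]; field_simp; norm_num
    rw [e1, abs_mul, abs_of_pos ht0, e2]
    exact (mul_le_mul_iff_right₀ ht0).symm
  by_cases hc : |d₁ * Real.log n₁ + d₂ * Real.log n₂ + d₃ * Real.log n₃| ≤
      δ / (64 * (N : ℝ) ^ 6)
  · rw [if_pos hc, if_pos (hiff.1 hc)]; simp
  · rw [if_neg hc, if_neg (fun hh => hc (hiff.2 hh))]; simp

theorem log_diff (N : ℕ) (a b : ℕ) (ha : a ∈ Icc 1 N) (hb : b ∈ Icc 1 N) (hab : a ≠ b) :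
    1 / (N:ℝ) ≤ |Real.log a - Real.log b| := by
  rw [mem_Icc] at ha hb
  rcases lt_or_gt_of_ne hab with h | h
  · have h1 := Pool.Agent.TH961.AP.log_sep ha.1 h
    have h2 : 1 / (N:ℝ) ≤ 1 / b := one_div_le_one_div_of_le
      (by exact_mod_cast (by omega : 0 < b)) (by exact_mod_cast hb.2)
    rw [abs_sub_comm]
    exact (h2.trans h1).trans (le_abs_self _)
  · have h1 := Pool.Agent.TH961.AP.log_sep hb.1 h
    have h2 : 1 / (N:ℝ) ≤ 1 / a := one_div_le_one_div_of_le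
      (by exact_mod_cast (by omega : 0 < a)) (by exact_mod_cast ha.2)
    exact (h2.trans h1).trans (le_abs_self _)

theorem result :
    (∀ (N : ℕ), 1 ≤ N → ∀ (u v δ : ℝ), 0 < δ → δ ≤ |u| → δ ≤ |v| → δ ≤ |u - v| →
      (((triples N).filter (fun n =>
        |(!![u, v; Real.log (n.1 / n.2.1), Real.log (n.2.2 / n.2.1)] :
          Matrix (Fin 2) (Fin 2) ℝ).det| ≤ δ / (64 * (N : ℝ) ^ 6))).card : ℝ) ≤
        4 * N * (1 + Real.log N) ^ 2) ∧
    (∀ (N : ℕ), 1 ≤ N →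
      ((((triples N) ×ˢ (triples N)).filter (fun p =>
        (p.1.1 ≠ p.1.2.1 ∧ p.1.2.2 ≠ p.1.2.1 ∧ p.1.1 ≠ p.1.2.2) ∧
        |(!![Real.log (p.1.1 / p.1.2.1), Real.log (p.1.2.2 / p.1.2.1);
            Real.log (p.2.1 / p.2.2.1), Real.log (p.2.2.2 / p.2.2.1)] :
          Matrix (Fin 2) (Fin 2) ℝ).det| ≤ 1 / (64 * (N : ℝ) ^ 7))).card : ℝ) ≤
        4 * (N : ℝ) ^ 4 * (1 + Real.log N) ^ 2) := by
  classical
  have part1 : ∀ (N : ℕ), 1 ≤ N → ∀ (u v δ : ℝ), 0 < δ → δ ≤ |u| → δ ≤ |v| → δ ≤ |u - v| →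
      (((triples N).filter (fun n =>
        |(!![u, v; Real.log (n.1 / n.2.1), Real.log (n.2.2 / n.2.1)] :
          Matrix (Fin 2) (Fin 2) ℝ).det| ≤ δ / (64 * (N : ℝ) ^ 6))).card : ℝ) ≤
        4 * N * (1 + Real.log N) ^ 2 := by
    intro N hN u v δ hδ hu hv huv
    have h := count_real N hN (-v) (v - u) u δ hδ (by rwa [abs_neg]) (by rwa [abs_sub_comm]) hu
      (by ring)
    refine le_trans (le_of_eq ?_) h
    congr 2
    apply filter_congr
    intro n hn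
    unfold triples at hn
    rw [mem_product, mem_product, mem_Icc, mem_Icc, mem_Icc] at hn
    obtain ⟨⟨a1, _⟩, ⟨a2, _⟩, ⟨a3, _⟩⟩ := hn
    have b1 : (n.1:ℝ) ≠ 0 := by exact_mod_cast (by omega : n.1 ≠ 0)
    have b2 : (n.2.1:ℝ) ≠ 0 := by exact_mod_cast (by omega : n.2.1 ≠ 0)
    have b3 : (n.2.2:ℝ) ≠ 0 := by exact_mod_cast (by omega : n.2.2 ≠ 0)
    rw [Matrix.det_fin_two_of, Real.log_div b1 b2, Real.log_div b3 b2]
    rw [show u * (Real.log n.2.2 - Real.log n.2.1) - v * (Real.log n.1 - Real.log n.2.1) =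
      -v * Real.log n.1 + (v - u) * Real.log n.2.1 + u * Real.log n.2.2 by ring]
  refine ⟨part1, ?_⟩
  intro N hN
  have hNr : (1:ℝ) ≤ N := by exact_mod_cast hN
  have hN0 : (0:ℝ) < N := by linarith
  set F := ((triples N) ×ˢ (triples N)).filter (fun p =>
        (p.1.1 ≠ p.1.2.1 ∧ p.1.2.2 ≠ p.1.2.1 ∧ p.1.1 ≠ p.1.2.2) ∧
        |(!![Real.log (p.1.1 / p.1.2.1), Real.log (p.1.2.2 / p.1.2.1);
            Real.log (p.2.1 / p.2.2.1), Real.log (p.2.2.2 / p.2.2.1)] :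
          Matrix (Fin 2) (Fin 2) ℝ).det| ≤ 1 / (64 * (N : ℝ) ^ 7)) with hF
  have hmaps : ∀ p ∈ F, p.1 ∈ triples N := by
    intro p hp
    rw [hF, mem_filter, mem_product] at hp
    exact hp.1.1
  have h1 := card_eq_sum_card_fiberwise (f := fun p : (ℕ × ℕ × ℕ) × (ℕ × ℕ × ℕ) => p.1)
    (s := F) (t := triples N) hmaps
  have h2 : (F.card : ℝ) = ∑ m ∈ triples N, ((F.filter (fun p => p.1 = m)).card : ℝ) := by
    rw [h1]; push_cast; rfl
  rw [h2]
  have h3 : ∀ m ∈ triples N, ((F.filter (fun p => p.1 = m)).card : ℝ) ≤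
      4 * N * (1 + Real.log N) ^ 2 := by
    intro m hm
    by_cases hd : m.1 ≠ m.2.1 ∧ m.2.2 ≠ m.2.1 ∧ m.1 ≠ m.2.2
    · have hm' := hm
      unfold triples at hm'
      rw [mem_product, mem_product] at hm'
      obtain ⟨c1, c2, c3⟩ := hm'
      have b1 : (m.1:ℝ) ≠ 0 := by
        have := (mem_Icc.1 c1).1
        exact_mod_cast (by omega : m.1 ≠ 0)
      have b2 : (m.2.1:ℝ) ≠ 0 := by
        have := (mem_Icc.1 c2).1
        exact_mod_cast (by omega : m.2.1 ≠ 0)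
      have b3 : (m.2.2:ℝ) ≠ 0 := by
        have := (mem_Icc.1 c3).1
        exact_mod_cast (by omega : m.2.2 ≠ 0)
      have hp := part1 N hN (Real.log (m.1 / m.2.1)) (Real.log (m.2.2 / m.2.1)) (1 / (N:ℝ))
        (by positivity)
        (by rw [Real.log_div b1 b2]; exact log_diff N _ _ c1 c2 hd.1)
        (by rw [Real.log_div b3 b2]; exact log_diff N _ _ c3 c2 hd.2.1)
        (by
          rw [Real.log_div b1 b2, Real.log_div b3 b2]
          rw [show Real.log m.1 - Real.log m.2.1 - (Real.log m.2.2 - Real.log m.2.1) =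
            Real.log m.1 - Real.log m.2.2 by ring]
          exact log_diff N _ _ c1 c3 hd.2.2)
      refine le_trans ?_ hp
      have hinj : Set.InjOn (fun p : (ℕ × ℕ × ℕ) × (ℕ × ℕ × ℕ) => p.2)
          (F.filter (fun p => p.1 = m) : Finset _) := by
        intro p hp p' hp' h
        rw [mem_coe, mem_filter] at hp hp'
        exact Prod.ext (hp.2.trans hp'.2.symm) h
      rw [← card_image_of_injOn hinj]
      have hsub : (F.filter (fun p => p.1 = m)).image (fun p => p.2) ⊆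
          (triples N).filter (fun n =>
          |(!![Real.log (m.1 / m.2.1), Real.log (m.2.2 / m.2.1);
            Real.log (n.1 / n.2.1), Real.log (n.2.2 / n.2.1)] :
            Matrix (Fin 2) (Fin 2) ℝ).det| ≤ 1 / (N:ℝ) / (64 * (N : ℝ) ^ 6)) := by
        intro n hn
        obtain ⟨p, hp, rfl⟩ := mem_image.1 hn
        rw [mem_filter, hF, mem_filter, mem_product] at hp
        obtain ⟨⟨⟨_, q1⟩, _, q2⟩, q3⟩ := hp
        rw [mem_filter]
        refine ⟨q1, ?_⟩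
        rw [← q3]
        refine q2.trans (le_of_eq ?_)
        field_simp
      exact_mod_cast card_le_card hsub
    · have : F.filter (fun p => p.1 = m) = ∅ := by
        rw [filter_eq_empty_iff]
        intro p hp hpm
        rw [hF, mem_filter] at hp
        rw [hpm] at hp
        exact hd hp.2.1
      rw [this]
      simp only [card_empty, Nat.cast_zero]
      positivity
  refine (sum_le_sum h3).trans ?_
  rw [sum_const, nsmul_eq_mul]
  have h4 : ((triples N).card : ℝ) = (N:ℝ) ^ 3 := by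
    unfold triples
    rw [card_product, card_product]
    simp only [Nat.card_Icc, Nat.add_sub_cancel]
    push_cast
    ring
  rw [h4]
  apply le_of_eq
  ring

end Pool.Agent.Results.MP_bbc1fa_nt.NearSingularMatrices
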