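import Mathlib

/-!
# The four exponentials conjecture for rational numbers in a short interval

Any counterexample `(log a_ij)` with all `a_ij` in `[x, x + h]`, `x > 1`, has
`0 < |a_11 + a_22 - a_12 - a_21| ≤ h ^ 2 (x + h) (1 + log x) / (4 x ^ 2 log x)`.  So there is none with the
`a_ij` in an arithmetic progression of difference `δ < x` inside `[x, x + √(δ x)]`, `x ≥ e`; for instance
none with integers `a_ij` in `[N, N + √N]`, `N ≥ 3`.
-/

set_option autoImplicit false

namespace Pool.Agent.Results.MP_bbc1fa_nt.ShortIntervals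

/-- equal sums: the more distant pair has the smaller product of logarithms -/
lemma wider {p q r s : ℝ} (hr : 1 < r) (hrp : r < p) (hpq : p ≤ q) (hs : r + s = p + q) :
    Real.log r * Real.log s < Real.log p * Real.log q := by
  have hp : 1 < p := hr.trans hrp
  have hq : 1 < q := hp.trans_le hpq
  have hqs : q < s := by linarith
  have hs1 : 1 < s := hq.trans hqs
  have lr : 0 < Real.log r := Real.log_pos hr
  have ls : 0 < Real.log s := Real.log_pos hs1
  have lp : 0 < Real.log p := Real.log_pos hp
  have lq : 0 < Real.log q := Real.log_pos hq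
  set t : ℝ := p - r with ht
  have ht0 : 0 < t := by linarith
  have hp0 : 0 < p := by linarith
  have hq0 : 0 < q := by linarith
  have h1 : Real.log r ≤ Real.log p - t / p := by
    have := Real.log_le_sub_one_of_pos (show 0 < r / p by positivity)
    rw [Real.log_div (by positivity) (by positivity)] at this
    have e : r / p - 1 = - (t / p) := by rw [ht]; field_simp; ring
    linarith
  have h2 : Real.log s ≤ Real.log q + t / q := by
    have := Real.log_le_sub_one_of_pos (show 0 < s / q by positivity)
    rw [Real.log_div (by positivity) (by positivity)] at this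
    have e : s / q - 1 = t / q := by
      have : s = q + t := by rw [ht]; linarith
      rw [this]; field_simp; ring
    linarith
  have hmono : p * Real.log p ≤ q * Real.log q :=
    mul_le_mul hpq (Real.log_le_log hp0 hpq) lp.le hq0.le
  have h3 : Real.log p / q ≤ Real.log q / p := by
    rw [div_le_div_iff₀ hq0 hp0]
    linarith
  have h4 : 0 < t / p := by positivity
  have h5 : 0 < t / q := by positivity
  calc Real.log r * Real.log s ≤ (Real.log p - t / p) * (Real.log q + t / q) :=
        mul_le_mul h1 h2 ls.le (lr.le.trans h1)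
    _ = Real.log p * Real.log q - t * (Real.log q / p - Real.log p / q) - (t / p) * (t / q) := by
        field_simp; ring
    _ < Real.log p * Real.log q := by
        have h6 : 0 ≤ t * (Real.log q / p - Real.log p / q) := mul_nonneg ht0.le (by linarith)
        have h7 : 0 < (t / p) * (t / q) := mul_pos h4 h5
        linarith

/-- equal sums and equal products of logarithms: the two pairs agree -/
lemma equal_sums {p q r s : ℝ} (hp : 1 < p) (hq : 1 < q) (hr : 1 < r) (hs : 1 < s)
    (h1 : p + q = r + s) (h2 : Real.log p * Real.log q = Real.log r * Real.log s) :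
    (p = r ∧ q = s) ∨ (p = s ∧ q = r) := by
  -- ordered version
  have key : ∀ {p q r s : ℝ}, 1 < p → 1 < r → p ≤ q → r ≤ s → p + q = r + s →
      Real.log p * Real.log q = Real.log r * Real.log s → p = r ∧ q = s := by
    intro p q r s hp hr hpq hrs h1 h2
    rcases lt_trichotomy r p with h | h | h
    · exact absurd h2 (wider hr h hpq h1.symm).ne'
    · exact ⟨h.symm, by linarith⟩
    · exact absurd h2 (wider hp h hrs h1).ne
  rcases le_total p q with a | a <;> rcases le_total r s with b | b
  · exact Or.inl (key hp hr a b h1 h2)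
  · obtain ⟨e1, e2⟩ := key hp hs a b (by linarith) (by linarith)
    exact Or.inr ⟨e1, e2⟩
  · obtain ⟨e1, e2⟩ := key hq hr a b (by linarith) (by linarith)
    exact Or.inr ⟨e2, e1⟩
  · obtain ⟨e1, e2⟩ := key hq hs a b (by linarith) (by linarith)
    exact Or.inl ⟨e2, e1⟩

/-- different sums: the pair with the larger sum has the larger product of logarithms, if the
difference of the sums is not too small -/
lemma different_sums {x h p q r s : ℝ} (hx : 1 < x) (hp : x ≤ p) (hq : x ≤ q)
    (hr : x ≤ r) (hr' : r ≤ x + h) (hs : x ≤ s) (hs' : s ≤ x + h)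
    (hT : 0 < r + s - (p + q))
    (hc : h ^ 2 * (x + h) * (1 + Real.log x) < 4 * x ^ 2 * Real.log x * (r + s - (p + q))) :
    Real.log p * Real.log q < Real.log r * Real.log s := by
  have hh : 0 ≤ h := by linarith
  have hx0 : 0 < x := by linarith
  have hp0 : 0 < p := by linarith
  have hq0 : 0 < q := by linarith
  have hr0 : 0 < r := by linarith
  have hs0 : 0 < s := by linarith
  have hℓ : 0 < Real.log x := Real.log_pos hx
  set ℓ := Real.log x with hℓdef
  set T := r + s - (p + q) with hTdef
  set M : ℝ := (r + s) / 2 with hM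
  set m : ℝ := (p + q) / 2 with hm
  have hMx : x ≤ M := by rw [hM]; linarith
  have hMh : M ≤ x + h := by rw [hM]; linarith
  have hmx : x ≤ m := by rw [hm]; linarith
  have hM0 : 0 < M := by linarith
  have hm0 : 0 < m := by linarith
  set B := Real.log m with hB
  set A := (Real.log r + Real.log s) / 2 with hA
  set D := (Real.log r - Real.log s) / 2 with hD
  have hBℓ : ℓ ≤ B := Real.log_le_log hx0 hmx
  have hAℓ : ℓ ≤ A := by
    have h1 : ℓ ≤ Real.log r := Real.log_le_log hx0 hr
    have h2 : ℓ ≤ Real.log s := Real.log_le_log hx0 hs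
    rw [hA]; linarith
  -- the pair p, q
  have hpq : Real.log p * Real.log q ≤ B ^ 2 := by
    have h1 : Real.log p + Real.log q ≤ 2 * B := by
      rw [← Real.log_mul hp0.ne' hq0.ne']
      have h2 : p * q ≤ m ^ 2 := by rw [hm]; nlinarith [sq_nonneg (p - q)]
      have h3 := Real.log_le_log (mul_pos hp0 hq0) h2
      rw [Real.log_pow] at h3
      push_cast at h3
      exact h3
    have h4 : 0 ≤ Real.log p := Real.log_nonneg (by linarith)
    have h5 : 0 ≤ Real.log q := Real.log_nonneg (by linarith)
    nlinarith [sq_nonneg (Real.log p - Real.log q)]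
  -- lower bound for log M - B
  have hLB : T / (2 * (x + h)) ≤ Real.log M - B := by
    have h1 := Real.one_sub_inv_le_log_of_pos (show 0 < M / m by positivity)
    rw [Real.log_div hM0.ne' hm0.ne', inv_div] at h1
    have h2 : T / (2 * (x + h)) ≤ 1 - m / M := by
      have e : 1 - m / M = T / (2 * M) := by
        rw [hTdef, hm]
        field_simp
        rw [hM]; ring
      rw [e]
      apply div_le_div_of_nonneg_left hT.le (by positivity) (by linarith)
    linarith
  -- upper bound for log M - A
  have hrs2 : (r - s) ^ 2 ≤ h ^ 2 := by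
    apply sq_le_sq'
    · linarith
    · linarith
  have hLA : Real.log M - A ≤ h ^ 2 / (8 * x ^ 2) := by
    have h1 := Real.log_le_sub_one_of_pos (show 0 < M ^ 2 / (r * s) by positivity)
    rw [Real.log_div (by positivity) (by positivity), Real.log_pow, Real.log_mul hr0.ne' hs0.ne'] at h1
    push_cast at h1
    have e : M ^ 2 / (r * s) - 1 = (r - s) ^ 2 / (4 * (r * s)) := by
      rw [hM]; field_simp; ring
    rw [e] at h1
    have h2 : (r - s) ^ 2 / (4 * (r * s)) ≤ h ^ 2 / (4 * x ^ 2) := by
      apply div_le_div₀ (by positivity) hrs2 (by positivity)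
      have : x ^ 2 ≤ r * s := by nlinarith
      linarith
    have e2 : h ^ 2 / (8 * x ^ 2) = h ^ 2 / (4 * x ^ 2) / 2 := by field_simp; ring
    rw [e2, hA]
    linarith
  -- the difference of the logarithms
  have hDb : D ^ 2 ≤ h ^ 2 / (4 * x ^ 2) := by
    have h1 : ∀ {u v : ℝ}, x ≤ u → x ≤ v → u ≤ x + h → Real.log u - Real.log v ≤ h / x := by
      intro u v hu hv hu'
      have hu0 : 0 < u := by linarith
      have hv0 : 0 < v := by linarith
      have h2 := Real.log_le_sub_one_of_pos (show 0 < u / v by positivity)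
      rw [Real.log_div hu0.ne' hv0.ne'] at h2
      have h3 : u / v - 1 ≤ h / x := by
        have e : u / v - 1 = (u - v) / v := by field_simp
        rw [e]
        apply div_le_div₀ hh (by linarith) hx0 hv
      linarith
    have h2 := h1 hr hs hr'
    have h3 := h1 hs hr hs'
    have h4 : (Real.log r - Real.log s) ^ 2 ≤ (h / x) ^ 2 := by
      apply sq_le_sq'
      · linarith
      · linarith
    have e : h ^ 2 / (4 * x ^ 2) = (h / x) ^ 2 / 4 := by field_simp
    rw [e, hD]
    linarith [show ((Real.log r - Real.log s) / 2) ^ 2 = (Real.log r - Real.log s) ^ 2 / 4 by ring]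
  -- conclusion
  have hAB : h ^ 2 / (8 * x ^ 2 * ℓ) < A - B := by
    have h1 : h ^ 2 / (8 * x ^ 2) + h ^ 2 / (8 * x ^ 2 * ℓ) < T / (2 * (x + h)) := by
      have e : h ^ 2 / (8 * x ^ 2) + h ^ 2 / (8 * x ^ 2 * ℓ) = h ^ 2 * (1 + ℓ) / (8 * x ^ 2 * ℓ) := by
        field_simp
        ring
      rw [e, div_lt_div_iff₀ (by positivity) (by positivity)]
      nlinarith
    linarith
  have hprod : h ^ 2 / (4 * x ^ 2) < (A - B) * (A + B) := by
    have h0 : 0 ≤ h ^ 2 / (8 * x ^ 2 * ℓ) := by positivity
    have h1 : h ^ 2 / (8 * x ^ 2 * ℓ) * (2 * ℓ) = h ^ 2 / (4 * x ^ 2) := by field_simp; ring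
    have h2 : 2 * ℓ ≤ A + B := by linarith
    calc h ^ 2 / (4 * x ^ 2) = h ^ 2 / (8 * x ^ 2 * ℓ) * (2 * ℓ) := h1.symm
      _ ≤ h ^ 2 / (8 * x ^ 2 * ℓ) * (A + B) := mul_le_mul_of_nonneg_left h2 h0
      _ < (A - B) * (A + B) := mul_lt_mul_of_pos_right hAB (by linarith)
  have e1 : Real.log r * Real.log s = A ^ 2 - D ^ 2 := by rw [hA, hD]; ring
  rw [e1]
  nlinarith

/-- The deviation `a_11 + a_22 - a_12 - a_21`. -/
noncomputable def dev (a : Matrix (Fin 2) (Fin 2) ℚ) : ℝ := (a 0 0 : ℝ) + a 1 1 - (a 0 1 + a 1 0)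

/-- (1) If `a_ij` are rationals in `[x, x + h]`, `x > 1`, and `(log a_ij)` has `ℚ`-linearly independent rows and columns
but determinant `0`, then `0 < |a_11 + a_22 - a_12 - a_21| ≤ h ^ 2 (x + h) (1 + log x) / (4 x ^ 2 log x)`.
(2) Let `a_ij` be rationals in an arithmetic progression `b + δ ℤ` and in `[x, x + h]`, where `x ≥ e`, `0 < δ < x` and
`h ^ 2 ≤ δ x`. If `(log a_ij)` has `ℚ`-linearly independent rows and columns, its determinant is not `0`. -/
theorem result :
    (∀ (x h : ℝ) (a : Matrix (Fin 2) (Fin 2) ℚ), 1 < x → (∀ i j, x ≤ a i j ∧ (a i j : ℝ) ≤ x + h) →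
      LinearIndependent ℚ (fun i : Fin 2 => fun j : Fin 2 => Real.log (a i j)) →
      LinearIndependent ℚ (fun j : Fin 2 => fun i : Fin 2 => Real.log (a i j)) →
      (Matrix.of fun i j : Fin 2 => Real.log (a i j)).det = 0 →
      0 < |dev a| ∧ |dev a| ≤ h ^ 2 * (x + h) * (1 + Real.log x) / (4 * x ^ 2 * Real.log x)) ∧
    (∀ (b δ x h : ℝ) (a : Matrix (Fin 2) (Fin 2) ℚ), 0 < δ → δ < x → Real.exp 1 ≤ x → h ^ 2 ≤ δ * x →
      (∀ i j, ∃ n : ℤ, (a i j : ℝ) = b + n * δ) → (∀ i j, x ≤ a i j ∧ (a i j : ℝ) ≤ x + h) →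
      LinearIndependent ℚ (fun i : Fin 2 => fun j : Fin 2 => Real.log (a i j)) →
      LinearIndependent ℚ (fun j : Fin 2 => fun i : Fin 2 => Real.log (a i j)) →
      (Matrix.of fun i j : Fin 2 => Real.log (a i j)).det ≠ 0) := by
  have part1 : ∀ (x h : ℝ) (a : Matrix (Fin 2) (Fin 2) ℚ), 1 < x →
      (∀ i j, x ≤ a i j ∧ (a i j : ℝ) ≤ x + h) →
      LinearIndependent ℚ (fun i : Fin 2 => fun j : Fin 2 => Real.log (a i j)) →
      LinearIndependent ℚ (fun j : Fin 2 => fun i : Fin 2 => Real.log (a i j)) →
      (Matrix.of fun i j : Fin 2 => Real.log (a i j)).det = 0 →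
      0 < |dev a| ∧ |dev a| ≤ h ^ 2 * (x + h) * (1 + Real.log x) / (4 * x ^ 2 * Real.log x) := by
    intro x h a hx hI hrow hcol hdet
    rw [Matrix.det_fin_two] at hdet
    simp only [Matrix.of_apply] at hdet
    have h0 : Real.log (a 0 0) * Real.log (a 1 1) = Real.log (a 0 1) * Real.log (a 1 0) := by linarith
    have hone : ∀ i j, 1 < (a i j : ℝ) := fun i j => hx.trans_le (hI i j).1
    have hℓ : 0 < Real.log x := Real.log_pos hx
    have hx0 : 0 < x := by linarith
    constructor
    · rw [abs_pos]
      intro hd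
      unfold dev at hd
      rcases equal_sums (hone 0 0) (hone 1 1) (hone 0 1) (hone 1 0) (by linarith) h0 with
        ⟨e1, e2⟩ | ⟨e1, e2⟩
      · -- the two columns agree
        have : (0 : Fin 2) = 1 := hcol.injective (by
          funext i
          fin_cases i
          · simp [e1]
          · simp [e2])
        exact absurd this (by decide)
      · have : (0 : Fin 2) = 1 := hrow.injective (by
          funext j
          fin_cases j
          · simp [e1]
          · simp [e2])
        exact absurd this (by decide)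
    · by_contra hcon
      push Not at hcon
      rw [div_lt_iff₀ (by positivity)] at hcon
      rcases lt_trichotomy (dev a) 0 with hd | hd | hd
      · rw [abs_of_neg hd] at hcon
        unfold dev at hd hcon
        have := different_sums (h := h) hx (hI 0 0).1 (hI 1 1).1 (hI 0 1).1 (hI 0 1).2 (hI 1 0).1 (hI 1 0).2
          (by linarith) (by nlinarith)
        linarith
      · rw [hd, abs_zero, zero_mul] at hcon
        have hh : 0 ≤ h := by linarith [(hI 0 0).1, (hI 0 0).2]
        have : 0 ≤ h ^ 2 * (x + h) * (1 + Real.log x) := by positivity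
        linarith
      · rw [abs_of_pos hd] at hcon
        unfold dev at hd hcon
        have := different_sums (h := h) hx (hI 0 1).1 (hI 1 0).1 (hI 0 0).1 (hI 0 0).2 (hI 1 1).1 (hI 1 1).2
          (by linarith) (by nlinarith)
        linarith
  refine ⟨part1, fun b δ x h a hδ hδx hx hh hAP hI hrow hcol hdet => ?_⟩
  have he : (1 : ℝ) < Real.exp 1 := by
    have := Real.add_one_lt_exp (show (1 : ℝ) ≠ 0 by norm_num)
    linarith
  have hx1 : 1 < x := he.trans_le hx
  have hx0 : 0 < x := by linarith
  obtain ⟨hpos, hle⟩ := part1 x h a hx1 hI hrow hcol hdet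
  have hℓ : 1 ≤ Real.log x := by
    rw [← Real.log_exp 1]
    exact Real.log_le_log (Real.exp_pos 1) hx
  have hh0 : 0 ≤ h := by linarith [(hI 0 0).1, (hI 0 0).2]
  have hhx : h < x := by nlinarith
  -- the deviation is a multiple of δ
  obtain ⟨n1, h1⟩ := hAP 0 0
  obtain ⟨n2, h2⟩ := hAP 1 1
  obtain ⟨n3, h3⟩ := hAP 0 1
  obtain ⟨n4, h4⟩ := hAP 1 0
  have hdev : dev a = ((n1 + n2 - (n3 + n4) : ℤ) : ℝ) * δ := by
    unfold dev
    rw [h1, h2, h3, h4]
    push_cast
    ring
  have hn : (n1 + n2 - (n3 + n4) : ℤ) ≠ 0 := by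
    intro hz
    rw [hdev, hz] at hpos
    simp at hpos
  have hge : δ ≤ |dev a| := by
    rw [hdev, abs_mul, abs_of_pos hδ]
    have : (1 : ℝ) ≤ |((n1 + n2 - (n3 + n4) : ℤ) : ℝ)| := by
      rw [← Int.cast_abs]
      exact_mod_cast Int.one_le_abs hn
    nlinarith
  have hlt : h ^ 2 * (x + h) * (1 + Real.log x) / (4 * x ^ 2 * Real.log x) < δ := by
    rw [div_lt_iff₀ (by positivity)]
    have e1 : h ^ 2 * (x + h) * (1 + Real.log x) ≤ (δ * x) * (x + h) * (2 * Real.log x) := by
      apply mul_le_mul
      · exact mul_le_mul_of_nonneg_right hh (by linarith)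
      · linarith
      · linarith
      · positivity
    have e2 : (δ * x) * (x + h) * (2 * Real.log x) < (δ * x) * (2 * x) * (2 * Real.log x) := by
      apply mul_lt_mul_of_pos_right _ (by linarith)
      apply mul_lt_mul_of_pos_left (by linarith)
      positivity
    calc _ ≤ _ := e1
      _ < _ := e2
      _ = δ * (4 * x ^ 2 * Real.log x) := by ring
  linarith

end Pool.Agent.Results.MP_bbc1fa_nt.ShortIntervals
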